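import Pool.Agent.N440.LB.Stm

/-!
# LB/FB: equality of the norms of Fourier coefficients implies vanishing (helper398)
-/

set_option autoImplicit false

namespace Pool.Agent.N398.LB.FB

open Complex Set MeasureTheory Filter Topology
open scoped Real ComplexConjugate

theorem tp : (0 : ℝ) < 2 * π := Real.two_pi_pos

/-- the coefficient as a Fourier coefficient -/
theorem coef (F : ℝ → ℂ) (m : ℕ) :
    ∫ θ in (0 : ℝ)..(2 * π), F θ * exp (((m : ℝ) * θ : ℝ) * I) =
      (2 * π : ℝ) • fourierCoeffOn tp F (-(m : ℤ)) := by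
  rw [fourierCoeffOn_eq_integral, smul_smul, show (2 * π) * (1 / (2 * π - 0)) = 1 by
    rw [sub_zero, mul_one_div_cancel tp.ne'], one_smul]
  refine intervalIntegral.integral_congr fun θ _ => ?_
  show F θ * exp (((m : ℝ) * θ : ℝ) * I) = fourier (- -(m : ℤ)) (θ : AddCircle (2 * π - 0)) • F θ
  rw [fourier_coe_apply, smul_eq_mul, mul_comm]
  congr 2
  have h : (π : ℂ) ≠ 0 := by exact_mod_cast Real.pi_ne_zero
  push_cast
  field_simp
  ring

theorem coef_conj (F : ℝ → ℂ) (hF : ∀ θ, conj (F θ) = F θ) (m : ℕ)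
    (h : ∫ θ in (0 : ℝ)..(2 * π), F θ * exp (((m : ℝ) * θ : ℝ) * I) = 0) :
    fourierCoeffOn tp F (m : ℤ) = 0 := by
  rw [fourierCoeffOn_eq_integral]
  have h1 : ∫ θ in (0 : ℝ)..(2 * π), fourier (-(m : ℤ)) (θ : AddCircle (2 * π - 0)) • F θ =
      conj (∫ θ in (0 : ℝ)..(2 * π), F θ * exp (((m : ℝ) * θ : ℝ) * I)) := by
    rw [intervalIntegral.integral_of_le tp.le, intervalIntegral.integral_of_le tp.le,
      ← integral_conj]
    congr 1
    funext θ
    rw [fourier_coe_apply, smul_eq_mul, map_mul, hF, mul_comm, ← Complex.exp_conj]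
    congr 2
    have h : (π : ℂ) ≠ 0 := by exact_mod_cast Real.pi_ne_zero
    rw [map_mul, Complex.conj_ofReal, Complex.conj_I]
    push_cast
    field_simp
    ring
  rw [h1, h, map_zero, smul_zero]

/-- a bounded real periodic function whose coefficients vanish -/
theorem vanish {g : ℝ → ℝ} {C : ℝ} (hg : Measurable g) (hC : ∀ θ, |g θ| ≤ C)
    (hp : ∀ θ, g (θ + 2 * π) = g θ)
    (h : ∀ m : ℕ, ∫ θ in (0 : ℝ)..(2 * π), (g θ : ℂ) * exp (((m : ℝ) * θ : ℝ) * I) = 0) :
    ∀ᵐ θ : ℝ, g θ = 0 := by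
  have hL : MemLp (fun θ => (g θ : ℂ)) 2 (volume.restrict (Ioc 0 (2 * π))) :=
    MemLp.of_bound (Complex.measurable_ofReal.comp hg).aestronglyMeasurable C
      (ae_of_all _ fun θ => by rw [Complex.norm_real]; exact hC θ)
  have hs := hasSum_sq_fourierCoeffOn tp hL
  have hz : ∀ n : ℤ, fourierCoeffOn tp (fun θ => (g θ : ℂ)) n = 0 := by
    intro n
    rcases Int.eq_nat_or_neg n with ⟨m, rfl | rfl⟩
    · exact coef_conj _ (fun θ => Complex.conj_ofReal _) m (h m)
    · have h1 := coef (fun θ => (g θ : ℂ)) m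
      rw [h m] at h1
      exact (smul_eq_zero.1 h1.symm).resolve_left tp.ne'
  simp only [hz, norm_zero, ne_eq, OfNat.ofNat_ne_zero, not_false_eq_true, zero_pow] at hs
  have h2 : ∫ θ in (0 : ℝ)..(2 * π), ‖(g θ : ℂ)‖ ^ 2 = 0 := by
    have h3 := hs.unique hasSum_zero
    rw [sub_zero] at h3
    exact (smul_eq_zero.1 h3).resolve_left (inv_ne_zero tp.ne')
  rw [intervalIntegral.integral_of_le tp.le] at h2
  have hint : Integrable (fun θ => ‖(g θ : ℂ)‖ ^ 2) (volume.restrict (Ioc 0 (2 * π))) :=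
    hL.integrable_norm_pow (by norm_num)
  have h4 := (integral_eq_zero_iff_of_nonneg (fun θ => by positivity) hint).1 h2
  have h5 : ∀ᵐ θ : ℝ, θ ∈ Ioc 0 (2 * π) → g θ = 0 := by
    rw [← ae_restrict_iff' measurableSet_Ioc]
    filter_upwards [h4] with θ hθ
    have h6 : ‖(g θ : ℂ)‖ ^ 2 = 0 := hθ
    rw [sq_eq_zero_iff, norm_eq_zero] at h6
    exact_mod_cast h6
  have hper : Function.Periodic g (2 * π) := hp
  have h7 : ∀ k : ℤ, ∀ᵐ θ : ℝ, θ - k • (2 * π) ∈ Ioc 0 (2 * π) → g θ = 0 := by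
    intro k
    have h8 := (measurePreserving_sub_right volume (k • (2 * π))).quasiMeasurePreserving.ae h5
    filter_upwards [h8] with θ hθ h9
    rw [← hper.sub_zsmul_eq k]
    exact hθ h9
  filter_upwards [ae_all_iff.2 h7] with θ hθ
  obtain ⟨k, hk, -⟩ := existsUnique_sub_zsmul_mem_Ioc tp θ 0
  rw [zero_add] at hk
  exact hθ k hk

/-- the coefficient -/
noncomputable def c (f : ℂ → ℝ → ℝ) (m : ℕ) (z : ℂ) : ℂ :=
  ∫ θ in (0 : ℝ)..(2 * π), (f z θ : ℂ) * exp (((m : ℝ) * θ : ℝ) * I)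

variable {f : ℂ → ℝ → ℝ} {C : ℝ}

theorem c_le (hC : ∀ z θ, |f z θ| ≤ C) (m : ℕ) (z : ℂ) : ‖c f m z‖ ≤ C * (2 * π) := by
  unfold c
  have h := intervalIntegral.norm_integral_le_of_norm_le_const (a := 0) (b := 2 * π) (C := C)
    (f := fun θ => (f z θ : ℂ) * exp (((m : ℝ) * θ : ℝ) * I)) fun θ _ => by
      rw [norm_mul, Complex.norm_exp_ofReal_mul_I, mul_one, Complex.norm_real]
      exact hC z θ
  rwa [sub_zero, abs_of_pos tp] at h

theorem c_meas (hf : Measurable (Function.uncurry f)) (m : ℕ) : StronglyMeasurable (c f m) := by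
  have h1 : StronglyMeasurable fun p : ℂ × ℝ =>
      (f p.1 p.2 : ℂ) * exp (((m : ℝ) * p.2 : ℝ) * I) := by
    apply Measurable.stronglyMeasurable
    have h2 : Measurable fun p : ℂ × ℝ => (f p.1 p.2 : ℂ) := Complex.measurable_ofReal.comp hf
    exact h2.mul (by fun_prop)
  have h3 : c f m = fun z => ∫ θ in Ioc 0 (2 * π), (f z θ : ℂ) * exp (((m : ℝ) * θ : ℝ) * I) := by
    funext z
    exact intervalIntegral.integral_of_le tp.le
  rw [h3]
  exact h1.integral_prod_right'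

theorem c_tendsto (hf : Measurable (Function.uncurry f)) (hC : ∀ z θ, |f z θ| ≤ C) (z : ℂ) :
    Tendsto (fun m : ℕ => ‖c f m z‖ ^ 2) atTop (𝓝 0) := by
  have hL : MemLp (fun θ => (f z θ : ℂ)) 2 (volume.restrict (Ioc 0 (2 * π))) :=
    MemLp.of_bound (Complex.measurable_ofReal.comp hf.of_uncurry_left).aestronglyMeasurable C
      (ae_of_all _ fun θ => by rw [Complex.norm_real]; exact hC z θ)
  have hs := (hasSum_sq_fourierCoeffOn tp hL).summable
  have hinj : Function.Injective fun m : ℕ => -(m : ℤ) := fun a b hab => by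
    simpa using hab
  have h1 := (hs.comp_injective hinj).tendsto_cofinite_zero
  rw [Nat.cofinite_eq_atTop] at h1
  have h2 := h1.const_mul ((2 * π) ^ 2)
  rw [mul_zero] at h2
  refine h2.congr fun m => ?_
  show (2 * π) ^ 2 * ‖fourierCoeffOn tp (fun θ => (f z θ : ℂ)) (-(m : ℤ))‖ ^ 2 = ‖c f m z‖ ^ 2
  unfold c
  rw [coef, norm_smul, mul_pow ‖(2 * π : ℝ)‖, Real.norm_eq_abs, sq_abs]

open Pool.Agent.N440.LB in
theorem t_FB : S_FB := by
  intro S hS hfin f C hf hC hp h
  have : IsFiniteMeasure (volume.restrict S) := ⟨by rwa [Measure.restrict_apply_univ]⟩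
  have hA : ∀ m : ℕ, ∫ z in S, ‖c f (m + 2) z‖ ^ 2 = ∫ z in S, ‖c f m z‖ ^ 2 := by
    intro m
    have h1 := h (m + 1) (Nat.le_add_left 1 m)
    rw [Nat.add_sub_cancel] at h1
    exact h1
  have hA2 : ∀ m j : ℕ, ∫ z in S, ‖c f (m + 2 * j) z‖ ^ 2 = ∫ z in S, ‖c f m z‖ ^ 2 := by
    intro m j
    induction j with
    | zero => rfl
    | succ j ih => exact (hA (m + 2 * j)).trans ih
  have hbd : ∀ m z, ‖c f m z‖ ^ 2 ≤ (C * (2 * π)) ^ 2 := fun m z =>
    pow_le_pow_left₀ (norm_nonneg _) (c_le hC m z) 2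
  have hlim : Tendsto (fun m : ℕ => ∫ z in S, ‖c f m z‖ ^ 2) atTop (𝓝 0) := by
    have h1 := tendsto_integral_of_dominated_convergence (μ := volume.restrict S)
      (F := fun (m : ℕ) z => ‖c f m z‖ ^ 2) (f := fun _ => (0 : ℝ))
      (fun _ => (C * (2 * π)) ^ 2)
      (fun m => ((c_meas hf m).norm.pow 2).aestronglyMeasurable) (integrable_const _)
      (fun m => ae_of_all _ fun z => by
        rw [Real.norm_of_nonneg (by positivity)]
        exact hbd m z)
      (ae_of_all _ fun z => c_tendsto hf hC z)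
    simpa using h1
  have hA0 : ∀ m : ℕ, ∫ z in S, ‖c f m z‖ ^ 2 = 0 := by
    intro m
    have h1 : Tendsto (fun j : ℕ => m + 2 * j) atTop atTop :=
      tendsto_atTop_mono (fun j => show j ≤ m + 2 * j by omega) tendsto_id
    have h2 := hlim.comp h1
    have h3 : (fun m : ℕ => ∫ z in S, ‖c f m z‖ ^ 2) ∘ (fun j : ℕ => m + 2 * j) =
        fun _ => ∫ z in S, ‖c f m z‖ ^ 2 := by
      funext j
      exact hA2 m j
    rw [h3] at h2
    exact tendsto_nhds_unique tendsto_const_nhds h2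
  have hae : ∀ m : ℕ, ∀ᵐ z ∂(volume.restrict S), c f m z = 0 := by
    intro m
    have hint : Integrable (fun z => ‖c f m z‖ ^ 2) (volume.restrict S) :=
      Integrable.of_bound ((c_meas hf m).norm.pow 2).aestronglyMeasurable ((C * (2 * π)) ^ 2)
        (ae_of_all _ fun z => by
          rw [Real.norm_of_nonneg (by positivity)]
          exact hbd m z)
    have h1 := (integral_eq_zero_iff_of_nonneg (fun z => by positivity) hint).1 (hA0 m)
    filter_upwards [h1] with z hz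
    have h2 : ‖c f m z‖ ^ 2 = 0 := hz
    rwa [sq_eq_zero_iff, norm_eq_zero] at h2
  filter_upwards [ae_all_iff.2 hae] with z hz
  exact vanish hf.of_uncurry_left (hC z) (hp z) hz

end Pool.Agent.N398.LB.FB
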